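import Pool.Agent.AT5.Stmts2

/-!
# Row KSP: the class of `u y` is the union of the conjugates of its `X`-class
-/

open scoped BigOperators

noncomputable section

namespace Pool.Agent.PP.T5.H35

open Pool.Agent.Helper51_AWC Pool.Agent.Helper79_WRA Pool.Agent.PP Pool.Agent.PP.KF
open Pool.Agent.PP.K9 Pool.Agent.PP.K9.H97 Pool.Agent.PP.H75 Pool.Agent.PP.T3 Pool.Agent.PP.T2

theorem pow_part {G : Type} [Group G] [Finite G] {ℓ a : ℕ} {u y : G}
    (hu : orderOf u = ℓ ^ a) (hc : u * y = y * u) (hy : Reg ℓ y) :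
    ∃ n : ℕ, (u * y) ^ n = u := by
  have hco : (ℓ ^ a).Coprime (orderOf y) := by
    apply Nat.Coprime.pow_left
    exact Nat.Coprime.symm hy
  obtain ⟨n, h1, h2⟩ := Nat.chineseRemainder hco 1 0
  refine ⟨n, ?_⟩
  have hcm : Commute u y := hc
  rw [hcm.mul_pow]
  have e1 : u ^ n = u ^ 1 := by
    rw [pow_eq_pow_iff_modEq, hu]
    exact h1
  have e2 : y ^ n = y ^ 0 := by
    rw [pow_eq_pow_iff_modEq]
    exact h2
  rw [e1, e2, pow_one, pow_zero, mul_one]

theorem ksp (omf : OmfStmt) : KspStmt := by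
  intro ℓ _ F _ G _ _ a u y ha hu hc hy
  classical
  obtain ⟨hP, hcard, hne, hle, hcu, hconj, hmin, hker⟩ := omf ℓ G a u ha hu
  set X := Subgroup.normalizer (Om ℓ a u : Set G) with hX
  obtain ⟨n, hn⟩ := pow_part hu hc hy
  have hcent : ∀ c : G, c * (u * y) = (u * y) * c → c ∈ X := by
    intro c hcc
    have h1 : Commute c ((u * y) ^ n) := Commute.pow_right hcc n
    rw [hn] at h1
    rw [hX, mem_normalizer_iff_conjS, (hconj c).1]
    have h2 : c * u * c⁻¹ = u := by
      rw [h1.eq, mul_inv_cancel_right]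
    rw [h2]
  constructor
  · intro t
    by_cases hex : ∃ g : G, t = g * (u * y) * g⁻¹
    · obtain ⟨g, rfl⟩ := hex
      rw [finsum_eq_single _ (QuotientGroup.mk g : G ⧸ X)]
      · have h1 : ∃ q ∈ X, ((QuotientGroup.mk g : G ⧸ X).out)⁻¹ * (g * (u * y) * g⁻¹) *
            (QuotientGroup.mk g : G ⧸ X).out = q * (u * y) * q⁻¹ := by
          refine ⟨((QuotientGroup.mk g : G ⧸ X).out)⁻¹ * g, ?_, by group⟩
          have : (QuotientGroup.mk ((QuotientGroup.mk g : G ⧸ X).out) : G ⧸ X) =
            QuotientGroup.mk g := Quotient.out_eq' _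
          exact QuotientGroup.eq.1 this
        have h2 : ∃ q ∈ (⊤ : Subgroup G), g * (u * y) * g⁻¹ = q * (u * y) * q⁻¹ :=
          ⟨g, Subgroup.mem_top _, rfl⟩
        simp only [cj, clsum]
        rw [if_pos h1, if_pos h2]
      · intro q hq
        simp only [cj, clsum]
        rw [if_neg]
        rintro ⟨x, hx, hxe⟩
        apply hq
        have h3 : g * (u * y) * g⁻¹ = (q.out * x) * (u * y) * (q.out * x)⁻¹ := by
          have := congrArg (fun z => q.out * z * q.out⁻¹) hxe
          calc g * (u * y) * g⁻¹ = q.out * (q.out⁻¹ * (g * (u * y) * g⁻¹) * q.out) * q.out⁻¹ := by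
                group
            _ = q.out * (x * (u * y) * x⁻¹) * q.out⁻¹ := this
            _ = _ := by group
        have h4 : (q.out * x)⁻¹ * g ∈ X := by
          apply hcent
          have := congrArg (fun z => (q.out * x)⁻¹ * z * g) h3
          calc (q.out * x)⁻¹ * g * (u * y) = (q.out * x)⁻¹ * (g * (u * y) * g⁻¹) * g := by group
            _ = (q.out * x)⁻¹ * ((q.out * x) * (u * y) * (q.out * x)⁻¹) * g := this
            _ = (u * y) * ((q.out * x)⁻¹ * g) := by group
        have h5 : (q.out)⁻¹ * g ∈ X := by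
          have : (q.out)⁻¹ * g = x * ((q.out * x)⁻¹ * g) := by group
          rw [this]
          exact X.mul_mem hx h4
        have h6 : (QuotientGroup.mk q.out : G ⧸ X) = QuotientGroup.mk g := QuotientGroup.eq.2 h5
        rw [← h6]
        exact (Quotient.out_eq' q).symm
    · have h0 : clsum F (⊤ : Subgroup G) (u * y) t = 0 := by
        simp only [clsum]
        rw [if_neg]
        rintro ⟨q, -, hq⟩
        exact hex ⟨q, hq⟩
      rw [h0]
      apply finsum_eq_zero_of_forall_eq_zero
      intro q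
      simp only [cj, clsum]
      rw [if_neg]
      rintro ⟨x, -, hxe⟩
      apply hex
      refine ⟨q.out * x, ?_⟩
      have := congrArg (fun z => q.out * z * q.out⁻¹) hxe
      calc t = q.out * (q.out⁻¹ * t * q.out) * q.out⁻¹ := by group
        _ = q.out * (x * (u * y) * x⁻¹) * q.out⁻¹ := this
        _ = _ := by group
  · intro g c hgc
    have hex : ∃ x ∈ X, g⁻¹ * c * g = x * (u * y) * x⁻¹ := by
      by_contra hcon
      apply hgc
      simp only [cj, clsum]
      rw [if_neg hcon]
    obtain ⟨x, hx, hxe⟩ := hex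
    have hce : c = (g * x) * (u * y) * (g * x)⁻¹ := by
      have := congrArg (fun z => g * z * g⁻¹) hxe
      calc c = g * (g⁻¹ * c * g) * g⁻¹ := by group
        _ = g * (x * (u * y) * x⁻¹) * g⁻¹ := this
        _ = _ := by group
    set h := g * x with hh
    have hupow : h * u * h⁻¹ = c ^ n := by
      rw [hce, conj_pow, hn]
    refine ⟨h * u * h⁻¹, ⟨?_, ?_, ?_⟩, (hconj h).2, ?_, ⟨n, hupow⟩, ⟨h, rfl⟩⟩
    · refine ⟨a, ?_⟩
      rw [conj_pow, ← hu, pow_orderOf_eq_one, mul_one, mul_inv_cancel]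
    · rw [hupow]
      exact (Commute.refl c).pow_left n
    · have h1 : (h * u * h⁻¹)⁻¹ * c = h * y * h⁻¹ := by
        rw [hce]; group
      rw [h1]
      have h2 : orderOf (h * y * h⁻¹) = orderOf y := by
        rw [← MulAut.conj_apply]
        exact orderOf_injective (MulAut.conj h).toMonoidHom (MulAut.conj h).injective y
      show (orderOf (h * y * h⁻¹)).Coprime ℓ
      rw [h2]
      exact hy
    · rw [← (hconj h).1, hh, ← conjS_conjS, mem_normalizer_iff_conjS.1 hx]

end Pool.Agent.PP.T5.H35
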